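import Pool.Agent.Work.MP_85af13_lc.G.SysDefs
import Pool.Agent.Work.MP_85af13_lc.UP
import Pool.Agent.Work.MP_85af13_lc.Reduce

set_option autoImplicit false
set_option linter.unusedVariables false
set_option linter.unusedSimpArgs false

/-!
# The coded instance is the gadget graph

PROOF. The vertex `(v, i)` has the number `3 v + i`, the ground has the number `3 N`, `N = Y.1.length`. `gIdx_lt`, `gIdx_inj` by cases and
`omega`; bijectivity: `Fintype` cardinality (`3 N + 1`) or directly with `/ 3`, `% 3`. `gMult`: as `newMult` in Reduce.lean. `gEntry_eq`: `binVal (gEntry Y p q)` is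
(`binVal_sumL`, `binVal_addB`, `List.map_map`, sum over `flatMap` = sum over `v` of the five entries; `sum_range_fin` in Check.lean)
`Σ_v Σ_{i<5} (if tail = p ∧ head = q then wt else 0) + (if head = p ∧ tail = q then wt else 0)`, where tail, head, wt are the entries of the
`i`-th edge of `gEdgesAt Y v`. Compare with `ofEdges` (`Fintype.sum_prod_type`, `Fin.sum_univ_five`) edge by edge: the `i`-th edge of `gEdgesAt Y v`
is `(gIdx (tailE (v,i)), gIdx (headE (v,i)), bits of wtE (v,i))` (`gEdge_tail` etc.; `portI n t = gIdx (port (toTgt n t))`; `kindOf k = avg ↔ k = none`; `v = v0 ↔ (v : ℕ) =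
Y.2.2.2` by `h0`), and `gIdx` is injective. The case `p = q`: `mult` is `0` by definition and the gadget has no loops (`loopless`).
`gDeg_eq`: sum of `gEntry` over all `3 N + 1` vertices; the diagonal entries `gEntry p p` are `0` (`tail_ne_head`).
-/

namespace Pool.Agent.Work.MP_85af13_lc.G

open Pool.Agent.Work.PolyTime
open Pool.Agent.Work.MP_63b90e_lc (addB shiftB)
open Pool.Agent.Work.MP_62a643_lc (leB mulN dv)

/-- The number of a vertex of the gadget. -/
def gIdx {n : ℕ} : Vtx (Fin n) → ℕ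
  | none => 3 * n
  | some (v, i) => 3 * v + i

theorem gIdx_lt {n : ℕ} (p : Vtx (Fin n)) : gIdx p < 3 * n + 1 := by
  rcases p with _ | ⟨v, i⟩
  · simp [gIdx]
  · have h1 := v.2
    have h2 := i.2
    simp only [gIdx]
    omega

theorem gIdx_inj {n : ℕ} {p q : Vtx (Fin n)} (h : gIdx p = gIdx q) : p = q := by
  rcases p with _ | ⟨v, i⟩ <;> rcases q with _ | ⟨u, j⟩
  · rfl
  · exfalso
    have h1 := u.2
    have h2 := j.2
    simp only [gIdx] at h
    omega
  · exfalso
    have h1 := v.2
    have h2 := i.2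
    simp only [gIdx] at h
    omega
  · have h1 := i.2
    have h2 := j.2
    simp only [gIdx] at h
    have h3 : (v : ℕ) = u := by omega
    have h4 : (i : ℕ) = j := by omega
    rw [Fin.ext h3, Fin.ext h4]

theorem gInst_length (Y : SysCode) : (gInst Y).2.length = 3 * Y.1.length + 1 := by
  simp [gInst]

theorem gIdx_bij (Y : SysCode) : Function.Bijective
    (fun p : Vtx (Fin Y.1.length) => (⟨gIdx p, (gIdx_lt p).trans_le (gInst_length Y).ge⟩ :
      Fin (gInst Y).2.length)) := by
  rw [Fintype.bijective_iff_injective_and_card]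
  constructor
  · intro p q h
    exact gIdx_inj (Fin.mk.inj h)
  · rw [Fintype.card_fin, gInst_length, Fintype.card_option, Fintype.card_prod, Fintype.card_fin,
      Fintype.card_fin, mul_comm]

/-- The vertices of the coded instance. -/
noncomputable def gEquiv (Y : SysCode) : Vtx (Fin Y.1.length) ≃ Fin (gInst Y).2.length :=
  Equiv.ofBijective _ (gIdx_bij Y)

theorem gEquiv_val (Y : SysCode) (p : Vtx (Fin Y.1.length)) :
    ((gEquiv Y p : Fin _) : ℕ) = gIdx p := rfl

private theorem gIdx_iff {n : ℕ} (p q : Vtx (Fin n)) : gIdx p = gIdx q ↔ p = q :=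
  ⟨gIdx_inj, fun h => h ▸ rfl⟩

private theorem part_aux (P Q : Prop) [Decidable P] [Decidable Q] (w : List Bool) (W : ℕ)
    (hw : binVal w = W) :
    binVal (bif decide P && decide Q then w else []) = W * (if P ∧ Q then 1 else 0) := by
  by_cases h1 : P <;> by_cases h2 : Q <;> simp [h1, h2, hw, binVal]

private theorem entry_aux {n : ℕ} (p q t h : Vtx (Fin n)) (e : ℕ × ℕ × List Bool) (W : ℕ)
    (ha : e.1 = gIdx t) (hb : e.2.1 = gIdx h) (hw : binVal e.2.2 = W) :
    binVal (addB (bif decide (e.1 = gIdx p) && decide (e.2.1 = gIdx q) then e.2.2 else [])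
      (bif decide (e.2.1 = gIdx p) && decide (e.1 = gIdx q) then e.2.2 else [])) =
    W * ((if t = p ∧ h = q then 1 else 0) + (if h = p ∧ t = q then 1 else 0)) := by
  rw [binVal_addB, ha, hb, part_aux _ _ _ _ hw, part_aux _ _ _ _ hw, mul_add]
  simp only [gIdx_iff]

private theorem sum_flatMap' {α : Type} (l : List α) (f : α → List ℕ) :
    (l.flatMap f).sum = (l.map fun a => (f a).sum).sum := by
  induction l with
  | nil => rfl
  | cons a l ih => rw [List.flatMap_cons, List.sum_append, List.map_cons, List.sum_cons, ih]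

private theorem portI_eq (n : ℕ) (t : Option ℕ) : portI n t = gIdx (port (toTgt n t)) := by
  rcases t with _ | u
  · rfl
  · by_cases h : u < n
    · simp [portI, toTgt, h, port, gIdx]
    · simp [portI, toTgt, h, port, gIdx]

private theorem kind_iff (k : Option Bool) : kindOf k = Kind.avg ↔ k = none := by
  rcases k with _ | _ | _ <;> simp [kindOf]

theorem gEntry_eq (Y : SysCode) (v0 : Fin Y.1.length) (h0 : (v0 : ℕ) = Y.2.2.2)
    (p q : Vtx (Fin Y.1.length)) :
    binVal (gEntry Y (gIdx p) (gIdx q)) = (gadget (sysOf Y) (paramsOf Y) v0).m p q := by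
  rw [gEntry, binVal_sumL, List.map_map, gEdges, List.map_flatMap, sum_flatMap',
    sum_range_fin]
  unfold gadget ofEdges
  simp only
  rw [Fintype.sum_prod_type]
  refine Finset.sum_congr rfl fun v _ => ?_
  rw [Fin.sum_univ_five]
  simp only [gEdgesAt, List.map_cons, List.map_nil, List.sum_cons, List.sum_nil, add_zero,
    Function.comp_def]
  have e0 := entry_aux p q (tailE (sysOf Y) (v, 0)) (headE (sysOf Y) (v, 0))
    (3 * (v : ℕ) + 1, 3 * (v : ℕ), wwB Y) (wtE (paramsOf Y) v0 (v, 0)) rfl rfl rfl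
  have e1 := entry_aux p q (tailE (sysOf Y) (v, 1)) (headE (sysOf Y) (v, 1))
    (3 * (v : ℕ) + 2, 3 * (v : ℕ) + 1, hhB Y) (wtE (paramsOf Y) v0 (v, 1)) rfl rfl rfl
  have e2 := entry_aux p q (tailE (sysOf Y) (v, 2)) (headE (sysOf Y) (v, 2))
    (3 * (v : ℕ) + 1, portI Y.1.length (nodeOf Y v).2.1.1, [true])
    (wtE (paramsOf Y) v0 (v, 2)) rfl (portI_eq _ _) rfl
  have e3 := entry_aux p q (tailE (sysOf Y) (v, 3)) (headE (sysOf Y) (v, 3))
    (bif decide ((nodeOf Y v).1 = none) then 3 * (v : ℕ) + 1 else 3 * (v : ℕ) + 2,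
      portI Y.1.length (nodeOf Y v).2.2.1, [true])
    (wtE (paramsOf Y) v0 (v, 3)) (by
      simp only [tailE]
      have hk : (sysOf Y).kind v = Kind.avg ↔ (nodeOf Y v).1 = none := kind_iff _
      by_cases h : (nodeOf Y v).1 = none
      · simp [h, hk.mpr h, gIdx]
      · have h' : ¬ (sysOf Y).kind v = Kind.avg := fun hh => h (hk.mp hh)
        simp [h, h', gIdx]) (portI_eq _ _) rfl
  have e4 := entry_aux p q (tailE (sysOf Y) (v, 4)) (headE (sysOf Y) (v, 4))
    (3 * (v : ℕ), 3 * Y.1.length, bif decide ((v : ℕ) = Y.2.2.2) then qqB Y else [true])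
    (wtE (paramsOf Y) v0 (v, 4)) rfl rfl (by
      simp only [wtE]
      by_cases h : (v : ℕ) = Y.2.2.2
      · have h' : v = v0 := Fin.ext (h.trans h0.symm)
        simp [h, h', paramsOf]
        rw [← h0]
        simp
      · have h' : ¬ v = v0 := fun hh => h (by rw [hh, h0])
        simp [h, h', binVal])
  rw [← e0, ← e1, ← e2, ← e3, ← e4]
  simp only [add_assoc]

theorem gInst_m (Y : SysCode) (v0 : Fin Y.1.length) (h0 : (v0 : ℕ) = Y.2.2.2)
    (p q : Vtx (Fin Y.1.length)) :
    (graphOf (gInst Y)).m (gEquiv Y p) (gEquiv Y q) =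
      (gadget (sysOf Y) (paramsOf Y) v0).m p q := by
  change mult (gInst Y) (gEquiv Y p) (gEquiv Y q) = _
  rw [gEquiv_val, gEquiv_val]
  unfold mult
  by_cases h : p = q
  · subst h
    rw [if_pos rfl, (gadget (sysOf Y) (paramsOf Y) v0).loopless]
  · rw [if_neg (fun hh => h (gIdx_inj hh)), ← gEntry_eq Y v0 h0 p q]
    have hp := gIdx_lt p
    have hq := gIdx_lt q
    have h1 : (gInst Y).1.getD (gIdx p) [] =
        (List.range (3 * Y.1.length + 1)).map fun q => gEntry Y (gIdx p) q := by
      rw [List.getD_eq_getElem _ _ (by simp [gInst, hp])]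
      simp [gInst]
    rw [h1, List.getD_eq_getElem _ _ (by simp [hq])]
    simp

theorem gDeg_eq (Y : SysCode) (v0 : Fin Y.1.length) (h0 : (v0 : ℕ) = Y.2.2.2)
    (p : Vtx (Fin Y.1.length)) :
    binVal (gDeg Y (gIdx p)) = (gadget (sysOf Y) (paramsOf Y) v0).outDeg p := by
  rw [gDeg, binVal_sumL, List.map_map, ← gInst_length Y, sum_range_fin, MultiDigraph.outDeg,
    ← (gEquiv Y).sum_comp]
  refine Finset.sum_congr rfl fun q _ => ?_
  rw [Function.comp_apply, gEquiv_val, gEntry_eq Y v0 h0]

end Pool.Agent.Work.MP_85af13_lc.G
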