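import Pool.Agent.Work.MP_85af13_lc.G.B.SubB
import Pool.Agent.Work.MP_85af13_lc.G.B.Iso

set_option autoImplicit false
set_option linter.unusedVariables false
set_option linter.unusedSimpArgs false

/-!
# The coded configuration is the configuration of the gadget

PROOF. `chipsOf (gInst Y) (gEquiv Y p) = binVal (gChip Y (gIdx p))` (as in `new_chips`, Reduce.lean). By `binVal_subB`, `binVal_addB` this is
`(deg + neg) - (1 + pos)` (truncated), and `slack p = pos - neg` as integers (`slack_eq_gPos`), so it is `(deg - 1 - slack p).toNat` (`gDeg_eq`, `omega`).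
`slack_eq_gPos`: by cases on `p` (`none`; `some (v, 0)`; `some (v, 1)`; `some (v, 2)`), `gIdx p = 3 N`, `3 v + i`; `dv 3 m = m / 3` (`dv_eq` in
MP_62a643_lc/Values.lean) gives `dv 3 (3 v + i) = v` and `3 v + i ≠ 3 N`; `sInt c = binVal (posB c) - binVal (negB c)`; `kindOf k = avg ↔ k = none`,
`kindOf k = max ↔ k = some true`; `binVal_mulB`, `binVal_mulN'`, `binVal_natB`, `binVal_addB`; `(sysOf Y).c v false = sInt (nodeOf Y v).2.1.2` and
`(sysOf Y).c v true = sInt (nodeOf Y v).2.2.2` by definition.
-/

namespace Pool.Agent.Work.MP_85af13_lc.G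

open Pool.Agent.Work.PolyTime
open Pool.Agent.Work.MP_63b90e_lc (addB shiftB)
open Pool.Agent.Work.MP_62a643_lc (leB mulN dv)

private theorem sInt_eq (c : Bool × List Bool) :
    sInt c = (binVal (posB c) : ℤ) - binVal (negB c) := by
  obtain ⟨b, l⟩ := c
  cases b <;> simp [sInt, posB, negB, binVal]

private theorem binVal_nil' : binVal [] = 0 := rfl

private theorem dv3 (v i : ℕ) (hi : i < 3) : dv 3 (3 * v + i) = v := by
  rw [Pool.Agent.Work.MP_62a643_lc.dv_eq (by norm_num)]
  omega

theorem slack_eq_gPos (Y : SysCode) (v0 : Fin Y.1.length) (h0 : (v0 : ℕ) = Y.2.2.2)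
    (p : Vtx (Fin Y.1.length)) :
    slack (sysOf Y) (paramsOf Y) v0 p =
      (binVal (gPos Y (gIdx p)) : ℤ) - binVal (gNeg Y (gIdx p)) := by
  rcases p with _ | ⟨v, i⟩
  · simp only [slack, gIdx, gPos, gNeg, decide_true, cond_true, binVal_natB, binVal_mulB,
      paramsOf, Fintype.card_fin]
    push_cast
    ring
  · have hv := v.2
    have hi := i.2
    have hN : ¬ (3 * (v : ℕ) + (i : ℕ) = 3 * Y.1.length) := by omega
    have hd : dv 3 (3 * (v : ℕ) + (i : ℕ)) = v := dv3 _ _ hi
    have hvv : ((v : ℕ) = Y.2.2.2) ↔ v = v0 := by
      rw [← h0]; exact Fin.val_inj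
    simp only [gIdx, gPos, gNeg, hN, hd, decide_false, cond_false]
    fin_cases i
    · have e1 : slack (sysOf Y) (paramsOf Y) v0 (some (v, 0)) =
          (if v = v0 then (binVal (qqB Y) : ℤ) else 1) * (binVal Y.2.1 : ℤ) +
            2 * (Fintype.card (Fin Y.1.length) : ℤ) * ((binVal Y.2.1 : ℤ) + 1) := rfl
      have e2 : decide (3 * (v : ℕ) + 0 = 3 * (v : ℕ)) = true := by simp
      have e3 : decide ((v : ℕ) = Y.2.2.2) = decide (v = v0) := by
        rw [decide_eq_decide]; exact hvv
      have e4 : binVal [true] = 1 := by simp [binVal]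
      show slack (sysOf Y) (paramsOf Y) v0 (some (v, 0)) = _
      rw [e1]
      simp only [Fin.zero_eta, Fin.val_zero, e2, e3, cond_true, binVal_addB,
        binVal_mulB, binVal_mulN', Fintype.card_fin, binVal_nil', e4]
      generalize qqB Y = Q
      generalize Y.2.1 = R
      by_cases h : v = v0
      · rw [if_pos h, decide_eq_true h, cond_true]
        push_cast
        ring
      · rw [if_neg h, decide_eq_false h, cond_false, e4]
        push_cast
        ring
    · have h1 : ¬ (3 * (v : ℕ) + 1 = 3 * v) := by omega
      have h2 : 3 * (v : ℕ) + 1 - 3 * v = 1 := by omega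
      have e1 : (sysOf Y).c v false = sInt (nodeOf Y v).2.1.2 := rfl
      have e2 : (sysOf Y).c v true = sInt (nodeOf Y v).2.2.2 := rfl
      have e3 : (sysOf Y).kind v = kindOf (nodeOf Y v).1 := rfl
      have e4 : (paramsOf Y).H = binVal (hhB Y) := rfl
      simp only [Fin.mk_one, Fin.val_one, h1, h2, decide_false, cond_false, decide_true,
        Bool.true_and, slack, e1, e2, e3, e4, gCst, cond_true, binVal_addB, sInt_eq]
      generalize hhB Y = hh
      generalize (nodeOf Y v).2.1.2 = c1
      generalize (nodeOf Y v).2.2.2 = c2
      generalize (nodeOf Y v).1 = kk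
      rcases kk with _ | b
      · have g1 : decide ((none : Option Bool) = some true) = false := by decide
        simp only [kindOf, decide_true, cond_true, g1, cond_false, binVal_addB, binVal_nil']
        push_cast
        ring
      · cases b
        · have g1 : decide ((some false : Option Bool) = some true) = false := by decide
          have g2 : decide ((some false : Option Bool) = none) = false := by decide
          simp only [kindOf, g1, g2, cond_false, binVal_addB, binVal_nil']
          push_cast
          ring
        · have g1 : decide ((some true : Option Bool) = some true) = true := by decide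
          have g2 : decide ((some true : Option Bool) = none) = false := by decide
          simp only [kindOf, g1, g2, cond_false, cond_true, binVal_addB, binVal_nil',
            decide_true]
          push_cast
          ring
    · have h1 : ¬ (3 * (v : ℕ) + 2 = 3 * v) := by omega
      have h2 : 3 * (v : ℕ) + 2 - 3 * v = 2 := by omega
      have h3 : ¬ (3 * (v : ℕ) + 2 = 3 * v + 1) := by omega
      have h4 : ¬ ((2 : ℕ) = 1) := by omega
      have e2 : (sysOf Y).c v true = sInt (nodeOf Y v).2.2.2 := rfl
      have e3 : (sysOf Y).kind v = kindOf (nodeOf Y v).1 := rfl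
      simp only [Fin.reduceFinMk, Fin.val_two, h1, h2, h3, h4, decide_false, cond_false,
        decide_true, Bool.false_and, slack, e2, e3, gCst, cond_true, binVal_addB, sInt_eq]
      generalize (nodeOf Y v).2.2.2 = c2
      generalize (nodeOf Y v).1 = kk
      rcases kk with _ | b
      · simp only [kindOf, decide_true, cond_true, if_true, binVal_nil']
        simp
      · cases b
        · have g2 : decide ((some false : Option Bool) = none) = false := by decide
          have g3 : ¬ (Kind.min = Kind.avg) := by decide
          simp only [kindOf, g2, g3, cond_false, if_false, binVal_nil']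
          simp
        · have g2 : decide ((some true : Option Bool) = none) = false := by decide
          have g3 : ¬ (Kind.max = Kind.avg) := by decide
          simp only [kindOf, g2, g3, cond_false, if_false, binVal_nil']
          simp

theorem gInst_chips (Y : SysCode) (v0 : Fin Y.1.length) (h0 : (v0 : ℕ) = Y.2.2.2)
    (p : Vtx (Fin Y.1.length)) :
    chipsOf (gInst Y) (gEquiv Y p) = chips (sysOf Y) (paramsOf Y) v0 p := by
  have h1 : chipsOf (gInst Y) (gEquiv Y p) = binVal (gChip Y (gIdx p)) := by
    rw [chipsOf, List.getD_eq_getElem _ _ (gEquiv Y p).2]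
    simp only [gInst, List.getElem_map, List.getElem_range]
    rfl
  have h2 := slack_eq_gPos Y v0 h0 p
  have h3 := gDeg_eq Y v0 h0 p
  rw [h1, gChip, binVal_subB, binVal_addB, binVal_addB, h3]
  unfold chips
  rw [h2]
  have h4 : binVal [true] = 1 := by simp [binVal]
  rw [h4]
  omega

end Pool.Agent.Work.MP_85af13_lc.G
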