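import Pool.Agent.Work.MP_85af13_lc.G.B.SubB

set_option autoImplicit false
set_option linter.unusedVariables false
set_option linter.unusedSimpArgs false

/-!
# The parameters of a coded system are good

PROOF. Write `N = Y.1.length ≥ 1`, `R = binVal Y.2.1`, `C = binVal (cTot Y)`, `K = R + C + N + 2`. `const_le`: `(sysOf Y).c v i = sInt` of a
constant of the node `Y.1[v]`, `|sInt c| = binVal c.2 ≤ binVal (addB ..) ≤` the sum (`binVal_sumL`, `binVal_addB`, `List.single_le_sum` or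
`List.le_sum_of_mem`). `good_sys`: the values are `Q = 16 K^3`, `H = 256 K^5`, `W = (N + 1) H` (`binVal_shiftB`, `binVal_mulB`, `binVal_mulN'`,
`binVal_addB`, `binVal_natB`); use `C`, `Dl = N`, `U = 4 K^2`, `L = 80 K^5`, `T = N (3 C + H) + (Q + N) R + 2 N N (R + 1) + 2 N`. After
substituting `N = j + 1` and `K = R + C + j + 3` every inequality of `Good` is an inequality between polynomials in `j`, `R`, `C` in which
(right side - left side) has nonnegative coefficients: copy the proof of `good` in Reduction.lean (`zify; rw [← sub_nonneg]; ring_nf; positivity`), or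
first prove `N + 2 ≤ K`, `R ≤ K`, `C ≤ K`, `3 ≤ K` and estimate.
-/

namespace Pool.Agent.Work.MP_85af13_lc.G

open Pool.Agent.Work.PolyTime
open Pool.Agent.Work.MP_63b90e_lc (addB shiftB)
open Pool.Agent.Work.MP_62a643_lc (leB mulN dv)

theorem binVal_kkB (Y : SysCode) :
    binVal (kkB Y) = binVal Y.2.1 + binVal (cTot Y) + (Y.1.length + 2) := by
  rw [kkB, binVal_addB, binVal_addB, binVal_natB]

private theorem binVal_qqB (Y : SysCode) :
    binVal (qqB Y) = 16 * (binVal (kkB Y) * (binVal (kkB Y) * binVal (kkB Y))) := by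
  rw [qqB, binVal_shiftB, binVal_mulB, binVal_mulB]
  norm_num

private theorem binVal_hhB (Y : SysCode) :
    binVal (hhB Y) = 256 * (binVal (kkB Y) * binVal (kkB Y) *
      (binVal (kkB Y) * (binVal (kkB Y) * binVal (kkB Y)))) := by
  rw [hhB, binVal_shiftB, binVal_mulB, binVal_mulB, binVal_mulB, binVal_mulB]
  norm_num

private theorem binVal_wwB (Y : SysCode) :
    binVal (wwB Y) = (Y.1.length + 1) * binVal (hhB Y) := by
  rw [wwB, binVal_mulN']

private theorem abs_sInt (c : Bool × List Bool) : |sInt c| = (binVal c.2 : ℤ) := by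
  unfold sInt
  split_ifs
  · rw [abs_neg, Nat.abs_cast]
  · rw [Nat.abs_cast]

theorem const_le (Y : SysCode) (v : Fin Y.1.length) (i : Bool) :
    |(sysOf Y).c v i| ≤ (binVal (cTot Y) : ℤ) := by
  have h1 : nodeOf Y v ∈ Y.1 := by
    unfold nodeOf
    rw [List.getD_eq_getElem _ _ v.2]
    exact List.getElem_mem _
  have h2 : binVal (addB (nodeOf Y v).2.1.2.2 (nodeOf Y v).2.2.2.2) ≤ binVal (cTot Y) := by
    rw [cTot, binVal_sumL, List.map_map]
    refine List.single_le_sum (fun x _ => Nat.zero_le x) _ ?_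
    exact List.mem_map.mpr ⟨_, h1, rfl⟩
  rw [binVal_addB] at h2
  change |sInt (bif i then (nodeOf Y v).2.2.2 else (nodeOf Y v).2.1.2)| ≤ _
  rw [abs_sInt]
  cases i
  · simp only [cond_false]
    exact_mod_cast (Nat.le_add_right _ _).trans h2
  · simp only [cond_true]
    exact_mod_cast (Nat.le_add_left _ _).trans h2

private theorem arith {N K R C : ℕ} (h : 0 < N) (hk : K = R + C + (N + 2)) :
    R + 2 * N * (R + 1) + N * N ≤ 4 * K ^ 2 ∧
    2 * N + 3 * N * (4 * K ^ 2) + N * N < 16 * (K * (K * K)) ∧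
    2 * N + (16 * (K * (K * K)) + N) * (4 * K ^ 2) + N * (4 * K ^ 2) + N * (4 * K ^ 2 + N) ≤
      80 * K ^ 5 ∧
    2 * C + 2 * (4 * K ^ 2 + 80 * K ^ 5) < 256 * (K * K * (K * (K * K))) ∧
    N * (3 * C + 256 * (K * K * (K * (K * K)))) + (16 * (K * (K * K)) + N) * R +
      2 * N * N * (R + 1) + 2 * N < (N + 1) * (256 * (K * K * (K * (K * K)))) := by
  have h1 : N ≤ K := by omega
  have h2 : R ≤ K := by omega
  have h3 : C ≤ K := by omega
  have h4 : 3 ≤ K := by omega
  have h5 : 1 ≤ K := by omega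
  have e1 : N ≤ K ^ 2 := h1.trans (Nat.le_self_pow (by norm_num) K)
  have e2 : N * N ≤ K ^ 2 := by rw [pow_two]; exact Nat.mul_le_mul h1 h1
  have e3 : K ^ 2 * 3 ≤ K ^ 3 := by rw [pow_succ K 2]; exact Nat.mul_le_mul_left _ h4
  have e4 : N * K ^ 2 ≤ K ^ 3 := by
    calc N * K ^ 2 ≤ K * K ^ 2 := Nat.mul_le_mul_right _ h1
      _ = K ^ 3 := by ring
  have e5 : K ^ 3 * 9 ≤ K ^ 5 := by
    calc K ^ 3 * 9 = K ^ 3 * (3 * 3) := by norm_num
      _ ≤ K ^ 3 * (K * K) := Nat.mul_le_mul_left _ (Nat.mul_le_mul h4 h4)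
      _ = K ^ 5 := by ring
  have e6 : C ≤ K ^ 2 := h3.trans (Nat.le_self_pow (by norm_num) K)
  have e7 : N * C ≤ K ^ 2 := by rw [pow_two]; exact Nat.mul_le_mul h1 h3
  have e8 : K ^ 3 * R ≤ K ^ 5 := by
    calc K ^ 3 * R ≤ K ^ 3 * K := Nat.mul_le_mul_left _ h2
      _ = K ^ 4 * 1 := by ring
      _ ≤ K ^ 4 * K := Nat.mul_le_mul_left _ h5
      _ = K ^ 5 := by ring
  have e9 : N * R ≤ K ^ 2 := by rw [pow_two]; exact Nat.mul_le_mul h1 h2
  have e10 : N * N * R ≤ K ^ 3 := by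
    calc N * N * R ≤ K * K * K := Nat.mul_le_mul (Nat.mul_le_mul h1 h1) h2
      _ = K ^ 3 := by ring
  have e11 : 0 < K ^ 3 := by positivity
  have e12 : R ≤ K ^ 2 := h2.trans (Nat.le_self_pow (by norm_num) K)
  have e13 : N * 3 ≤ K ^ 2 := by
    calc N * 3 ≤ K * K := Nat.mul_le_mul h1 h4
      _ = K ^ 2 := by ring
  have q3 : K * (K * K) = K ^ 3 := by ring
  have q5 : K * K * (K * (K * K)) = K ^ 5 := by ring
  refine ⟨?_, ?_, ?_, ?_, ?_⟩
  · subst hk
    clear e1 e2 e3 e4 e5 e6 e7 e8 e9 e10 e11 e12 e13 q3 q5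
    nlinarith [Nat.zero_le (R * C), Nat.zero_le (R * N), Nat.zero_le (C * N), Nat.zero_le (R * R),
      Nat.zero_le (C * C), Nat.zero_le (N * N)]
  · rw [q3]
    have : 3 * N * (4 * K ^ 2) = 12 * (N * K ^ 2) := by ring
    rw [this]
    omega
  · rw [q3]
    have : 2 * N + (16 * K ^ 3 + N) * (4 * K ^ 2) + N * (4 * K ^ 2) + N * (4 * K ^ 2 + N) =
      64 * K ^ 5 + 12 * (N * K ^ 2) + N * N + 2 * N := by ring
    rw [this]
    omega
  · rw [q5]
    omega
  · rw [q5, q3]
    have : N * (3 * C + 256 * K ^ 5) + (16 * K ^ 3 + N) * R + 2 * N * N * (R + 1) + 2 * N =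
      N * (256 * K ^ 5) + (3 * (N * C) + 16 * (K ^ 3 * R) + N * R + 2 * (N * N * R) +
        2 * (N * N) + 2 * N) := by ring
    rw [this, add_mul, one_mul]
    refine Nat.add_lt_add_left ?_ _
    omega

theorem good_sys (Y : SysCode) (h : 0 < Y.1.length) :
    ∃ C Dl U L T : ℕ, Good (sysOf Y) (paramsOf Y) C Dl U L T := by
  have hc := const_le Y
  have hq := binVal_qqB Y
  have hh := binVal_hhB Y
  have hw := binVal_wwB Y
  rw [hh] at hw
  obtain ⟨a1, a2, a3, a4, a5⟩ := arith h (binVal_kkB Y)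
  refine ⟨binVal (cTot Y), Y.1.length, 4 * binVal (kkB Y) ^ 2, 80 * binVal (kkB Y) ^ 5,
    Y.1.length * (3 * binVal (cTot Y) + binVal (hhB Y)) + (binVal (qqB Y) + Y.1.length) *
      binVal Y.2.1 + 2 * Y.1.length * Y.1.length * (binVal Y.2.1 + 1) + 2 * Y.1.length,
    hc, ?_, ?_, ?_, ?_, ?_, ?_, ?_⟩
  all_goals simp only [paramsOf, Fintype.card_fin, hw, hh, hq]
  · exact a1
  · exact a2
  · exact a3
  · exact a4
  · exact le_rfl
  · exact a5
  · exact a5

theorem params_pos (Y : SysCode) :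
    0 < (paramsOf Y).W ∧ 0 < (paramsOf Y).H ∧ 0 < (paramsOf Y).Q := by
  have hk : 0 < binVal (kkB Y) := by
    rw [binVal_kkB]
    omega
  have hh : 0 < binVal (hhB Y) := by
    rw [binVal_hhB]
    exact Nat.mul_pos (by norm_num) (Nat.mul_pos (Nat.mul_pos hk hk)
      (Nat.mul_pos hk (Nat.mul_pos hk hk)))
  refine ⟨?_, hh, ?_⟩
  · change 0 < binVal (wwB Y)
    rw [binVal_wwB]
    exact Nat.mul_pos (Nat.succ_pos _) hh
  · change 0 < binVal (qqB Y)
    rw [binVal_qqB]
    exact Nat.mul_pos (by norm_num) (Nat.mul_pos hk (Nat.mul_pos hk hk))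

end Pool.Agent.Work.MP_85af13_lc.G
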