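import Pool.Agent.Work.MP_85af13_lc.G.B.HubSys

set_option autoImplicit false
set_option linter.unusedVariables false
set_option linter.unusedSimpArgs false

/-!
# Solutions of the coded systems give solutions of min-max systems

PROOF. Write `N = A.length`, `K = slots A ≥ 1`. Let `x` be a solution of the system, `y v := x (v * K)` for `v < N` (and `0` otherwise). Min: by
induction on `j < K`, `y v ≤ x (v * K + j)` (second targets), so `y v ≤ y e.1 + wgt e` for every edge (its slot, first target; `slotEdge_of_lt`,
`edges_length_lt`). Max: if `y v > y e.1 + wgt e` for all slot edges `e` then by induction on `j`: `y v ≤ x (v * K + j)`, and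
the last slot gives a contradiction; so some slot edge satisfies `y v ≤ y e.1 + wgt e`; the loop of weight `-1` (`slotEdge_nil`) does not, so
`edges A v ≠ []` and the slot edge is in `edges A v` (`slotEdge_mem`). All targets are nodes: `e.1 * K < N * K` by `Closed`, `v * K + (j + 1) < N * K`.
-/

namespace Pool.Agent.Work.MP_85af13_lc.G

open Pool.Agent.Work.PolyTime
open Pool.Agent.Work.MP_63b90e_lc (addB shiftB)
open Pool.Agent.Work.MP_62a643_lc (leB mulN dv)

private def Xv (A : Arena) (x : Fin (sysA A).1.length → ℤ) (p : ℕ) : ℤ :=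
  if h : p < (sysA A).1.length then x ⟨p, h⟩ else 0

private theorem tgt_val (A : Arena) (x : Fin (sysA A).1.length → ℤ) (u : ℕ)
    (hu : u < A.length * slots A) :
    (toTgt (sysA A).1.length (some u)).elim 0 x = Xv A x u := by
  have h1 : u < (sysA A).1.length := by
    rw [sysA_length]
    exact hu
  unfold toTgt Xv
  simp only [h1, dif_pos]
  rfl

private theorem slots_pos (A : Arena) : 0 < slots A := Nat.succ_pos _

private theorem head_lt (A : Arena) (hc : Closed A) (v j : ℕ) (hv : v < A.length) :
    (slotEdge A v j).1 * slots A < A.length * slots A := by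
  refine Nat.mul_lt_mul_of_pos_right ?_ (slots_pos A)
  by_cases h : edges A v = []
  · rw [slotEdge_nil A v j h]
    exact hv
  · exact hc v hv _ (slotEdge_mem A v j h)

private theorem idx_lt (A : Arena) {v j : ℕ} (hv : v < A.length) (hj : j < slots A) :
    v * slots A + j < A.length * slots A := by
  calc v * slots A + j < v * slots A + slots A := by omega
    _ = (v + 1) * slots A := by ring
    _ ≤ A.length * slots A := Nat.mul_le_mul_right _ hv

private theorem key (A : Arena) (hc : Closed A) (v0 : Fin (sysA A).1.length)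
    (x : Fin (sysA A).1.length → ℤ) (h : SysSol (sysA A) v0 x) (v j : ℕ) (hv : v < A.length)
    (hj : j < slots A) :
    (owner A v = true → (Xv A x (v * slots A + j) ≤
        Xv A x ((slotEdge A v j).1 * slots A) + wgt (slotEdge A v j) ∨
      (j + 2 ≤ slots A ∧ Xv A x (v * slots A + j) ≤ Xv A x (v * slots A + (j + 1))))) ∧
    (owner A v = false → (Xv A x (v * slots A + j) ≤
        Xv A x ((slotEdge A v j).1 * slots A) + wgt (slotEdge A v j) ∧
      (j + 2 ≤ slots A → Xv A x (v * slots A + j) ≤ Xv A x (v * slots A + (j + 1))))) := by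
  have hp : v * slots A + j < (sysA A).1.length := by
    rw [sysA_length]
    exact idx_lt A hv hj
  have hn := sysA_node A v j hv hj
  have h1 := h.2 ⟨v * slots A + j, hp⟩
  have hx : x ⟨v * slots A + j, hp⟩ = Xv A x (v * slots A + j) := by
    unfold Xv
    rw [dif_pos hp]
  have hk : (sysOf (sysA A)).kind ⟨v * slots A + j, hp⟩ = kindOf (some (owner A v)) := by
    change kindOf (nodeOf (sysA A) (v * slots A + j)).1 = _
    rw [hn]
    rfl
  have ht0 : ((sysOf (sysA A)).tgt ⟨v * slots A + j, hp⟩ false).elim 0 x =
      Xv A x ((slotEdge A v j).1 * slots A) := by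
    change (toTgt (sysA A).1.length (nodeOf (sysA A) (v * slots A + j)).2.1.1).elim 0 x = _
    rw [hn]
    exact tgt_val A x _ (head_lt A hc v j hv)
  have hc0 : (sysOf (sysA A)).c ⟨v * slots A + j, hp⟩ false = wgt (slotEdge A v j) := by
    change sInt (nodeOf (sysA A) (v * slots A + j)).2.1.2 = _
    rw [hn]
    rfl
  have ht1 : j + 2 ≤ slots A → ((sysOf (sysA A)).tgt ⟨v * slots A + j, hp⟩ true).elim 0 x +
      (sysOf (sysA A)).c ⟨v * slots A + j, hp⟩ true = Xv A x (v * slots A + (j + 1)) := by
    intro h2
    change (toTgt (sysA A).1.length (nodeOf (sysA A) (v * slots A + j)).2.2.1).elim 0 x +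
      sInt (nodeOf (sysA A) (v * slots A + j)).2.2.2 = _
    rw [hn]
    have e : (slotNode A v j).2.2 = (some (v * slots A + (j + 1)), false, []) := by
      change (bif decide (j + 2 ≤ slots A) then _ else _) = _
      rw [decide_eq_true h2]
      rfl
    rw [e]
    change (toTgt (sysA A).1.length (some (v * slots A + (j + 1)))).elim 0 x + sInt (false, []) = _
    rw [tgt_val A x _ (idx_lt A hv (by omega))]
    have e2 : sInt (false, []) = 0 := rfl
    rw [e2, add_zero]
  have ht2 : ¬ j + 2 ≤ slots A → ((sysOf (sysA A)).tgt ⟨v * slots A + j, hp⟩ true).elim 0 x +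
      (sysOf (sysA A)).c ⟨v * slots A + j, hp⟩ true =
      Xv A x ((slotEdge A v j).1 * slots A) + wgt (slotEdge A v j) := by
    intro h2
    change (toTgt (sysA A).1.length (nodeOf (sysA A) (v * slots A + j)).2.2.1).elim 0 x +
      sInt (nodeOf (sysA A) (v * slots A + j)).2.2.2 = _
    rw [hn]
    have e : (slotNode A v j).2.2 =
        (some ((slotEdge A v j).1 * slots A), (slotEdge A v j).2.1, (slotEdge A v j).2.2) := by
      change (bif decide (j + 2 ≤ slots A) then _ else _) = _
      rw [decide_eq_false h2]
      rfl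
    rw [e]
    change (toTgt (sysA A).1.length (some ((slotEdge A v j).1 * slots A))).elim 0 x +
      wgt (slotEdge A v j) = _
    rw [tgt_val A x _ (head_lt A hc v j hv)]
  constructor
  · intro ho
    rw [hk, ho] at h1
    change x ⟨v * slots A + j, hp⟩ ≤
      ((sysOf (sysA A)).tgt ⟨v * slots A + j, hp⟩ false).elim 0 x +
        (sysOf (sysA A)).c ⟨v * slots A + j, hp⟩ false ∨
      x ⟨v * slots A + j, hp⟩ ≤
      ((sysOf (sysA A)).tgt ⟨v * slots A + j, hp⟩ true).elim 0 x +
        (sysOf (sysA A)).c ⟨v * slots A + j, hp⟩ true at h1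
    rw [ht0, hc0, hx] at h1
    rcases h1 with h1 | h1
    · exact Or.inl h1
    · by_cases h2 : j + 2 ≤ slots A
      · rw [ht1 h2] at h1
        exact Or.inr ⟨h2, h1⟩
      · rw [ht2 h2] at h1
        exact Or.inl h1
  · intro ho
    rw [hk, ho] at h1
    change x ⟨v * slots A + j, hp⟩ ≤
      ((sysOf (sysA A)).tgt ⟨v * slots A + j, hp⟩ false).elim 0 x +
        (sysOf (sysA A)).c ⟨v * slots A + j, hp⟩ false ∧
      x ⟨v * slots A + j, hp⟩ ≤
      ((sysOf (sysA A)).tgt ⟨v * slots A + j, hp⟩ true).elim 0 x +
        (sysOf (sysA A)).c ⟨v * slots A + j, hp⟩ true at h1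
    rw [ht0, hc0, hx] at h1
    refine ⟨h1.1, fun h2 => ?_⟩
    have h3 := h1.2
    rw [ht1 h2] at h3
    exact h3

theorem feasible_of_sysA (A : Arena) (hc : Closed A) (v0 : Fin (sysA A).1.length)
    (x : Fin (sysA A).1.length → ℤ) (h : SysSol (sysA A) v0 x) : Feasible A := by
  refine ⟨fun v => Xv A x (v * slots A), fun v hv => ⟨fun ho => ?_, fun ho e he => ?_⟩⟩
  · by_contra hno
    have hbad : ∀ j, ¬ Xv A x (v * slots A) ≤
        Xv A x ((slotEdge A v j).1 * slots A) + wgt (slotEdge A v j) := by
      intro j hle
      by_cases h2 : edges A v = []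
      · rw [slotEdge_nil A v j h2, ho] at hle
        have e2 : wgt (v, true, [true]) = -1 := rfl
        rw [e2] at hle
        change Xv A x (v * slots A) ≤ Xv A x (v * slots A) + -1 at hle
        omega
      · exact hno ⟨_, slotEdge_mem A v j h2, hle⟩
    have hind : ∀ j, j < slots A → Xv A x (v * slots A) ≤ Xv A x (v * slots A + j) := by
      intro j
      induction j with
      | zero => exact fun _ => le_rfl
      | succ j ih =>
        intro hj
        have h3 := ih (by omega)
        rcases (key A hc v0 x h v j hv (by omega)).1 ho with h4 | ⟨-, h4⟩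
        · exact absurd (h3.trans h4) (hbad j)
        · exact h3.trans h4
    have hK := slots_pos A
    have h5 := hind (slots A - 1) (by omega)
    rcases (key A hc v0 x h v (slots A - 1) hv (by omega)).1 ho with h6 | ⟨h6, -⟩
    · exact hbad _ (h5.trans h6)
    · omega
  · have hind : ∀ j, j < slots A → Xv A x (v * slots A) ≤ Xv A x (v * slots A + j) := by
      intro j
      induction j with
      | zero => exact fun _ => le_rfl
      | succ j ih =>
        intro hj
        exact (ih (by omega)).trans (((key A hc v0 x h v j hv (by omega)).2 ho).2 (by omega))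
    obtain ⟨j, hj, rfl⟩ := List.getElem_of_mem he
    have hl := edges_length_lt A v
    have h7 := ((key A hc v0 x h v j hv (by omega)).2 ho).1
    rw [slotEdge_of_lt A v j hj] at h7
    exact (hind j (by omega)).trans h7

end Pool.Agent.Work.MP_85af13_lc.G
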