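import Pool.Agent.Work.MP_85af13_lc.G.B.HubSys
import Pool.Agent.Work.MP_85af13_lc.G.A.Box

set_option autoImplicit false
set_option linter.unusedVariables false
set_option linter.unusedSimpArgs false

/-!
# Solutions of min-max systems give bounded solutions of the coded systems

PROOF. Write `N = A.length`, `K = slots A ≥ 1`, nodes `v * K + j`, `v < N`, `j < K` (every node number `i < N * K` is of this form, `v = i / K`,
`j = i % K`). Let `x` be the solution of `box` (`0 ≤ x ≤ tot`), `y v = x v + tot`. For a vertex `v` of the maximizer choose `j0` with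
`x v ≤ x e.1 + wgt e` for `e = (edges A v)[j0]`. Value of the node `v * K + j`: `y v` if `owner A v = false` or `j ≤ j0`, and `0` otherwise. All values are
in `[0, 2 tot]` (`binVal_addB`, `totB_val`). Max: slots `j < j0` use the next slot, `j0` uses its edge (`y v ≤ y e.1 + wgt e`; the value of the node
`e.1 * K + 0` is `y e.1` because `0 ≤ j0`), for `j > j0` we have `0 ≤ y u + wgt e` since `y u ≥ tot`, `wgt e ≥ - tot` (`edges_le`; `edges A v ≠ []` here;
`slotEdge_mem`). Min: `y v ≤ y e.1 + wgt e` for all edges and for the loop of weight `1` (`slotEdge_nil`), and the next slot has the value `y v`. All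
targets are nodes: `e.1 * K < N * K` by `Closed`.
-/

namespace Pool.Agent.Work.MP_85af13_lc.G

open Pool.Agent.Work.PolyTime
open Pool.Agent.Work.MP_63b90e_lc (addB shiftB)
open Pool.Agent.Work.MP_62a643_lc (leB mulN dv)

private theorem hs_slot_lt (A : Arena) (hc : Closed A) (v j : ℕ) (hv : v < A.length) :
    (slotEdge A v j).1 < A.length := by
  by_cases h : edges A v = []
  · rw [slotEdge_nil A v j h]
    exact hv
  · exact hc v hv _ (slotEdge_mem A v j h)

private theorem hs_wgt_ge (A : Arena) (v : ℕ) (e : WEdge) (he : e ∈ edges A v) :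
    -(tot A : ℤ) ≤ wgt e := by
  have h := edges_le A v e he
  have h' : (binVal e.2.2 : ℤ) ≤ tot A := by exact_mod_cast h
  unfold wgt
  split_ifs <;> omega

private theorem hs_tgt (n : ℕ) (f : ℕ → ℤ) (u : ℕ) (hu : u < n) :
    ((toTgt n (some u)).elim 0 fun i : Fin n => f i) = f u := by
  simp [toTgt, hu]

/-- The value of the node `i`. -/
private noncomputable def hsVal (A : Arena) (x : ℕ → ℤ) (j0 : ℕ → ℕ) (i : ℕ) : ℤ :=
  if owner A (i / slots A) = false ∨ i % slots A ≤ j0 (i / slots A) then
    x (i / slots A) + tot A else 0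

private theorem hs_val (A : Arena) (x : ℕ → ℤ) (j0 : ℕ → ℕ) (v j : ℕ) (hj : j < slots A) :
    hsVal A x j0 (v * slots A + j) =
      if owner A v = false ∨ j ≤ j0 v then x v + tot A else 0 := by
  have h1 : (v * slots A + j) / slots A = v := by
    rw [mul_comm, Nat.mul_add_div (by omega), Nat.div_eq_of_lt hj, add_zero]
  have h2 : (v * slots A + j) % slots A = j := by
    rw [mul_comm, Nat.mul_add_mod, Nat.mod_eq_of_lt hj]
  unfold hsVal
  rw [h1, h2]

private theorem hs_slots_pos (A : Arena) : 0 < slots A := by
  unfold slots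
  omega

private theorem hs_val0 (A : Arena) (x : ℕ → ℤ) (j0 : ℕ → ℕ) (v : ℕ) :
    hsVal A x j0 (v * slots A) = x v + tot A := by
  have h := hs_val A x j0 v 0 (hs_slots_pos A)
  rw [add_zero] at h
  rw [h, if_pos (Or.inr (Nat.zero_le _))]

private theorem hs_first (A : Arena) (hc : Closed A) (x : ℕ → ℤ) (j0 : ℕ → ℕ) (v j : ℕ)
    (hv : v < A.length) :
    ((toTgt (sysA A).1.length (some ((slotEdge A v j).1 * slots A))).elim 0
      fun i : Fin (sysA A).1.length => hsVal A x j0 i) = x (slotEdge A v j).1 + tot A := by
  rw [hs_tgt _ (hsVal A x j0), hs_val0]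
  rw [sysA_length]
  exact Nat.mul_lt_mul_of_pos_right (hs_slot_lt A hc v j hv) (hs_slots_pos A)

private theorem hs_next (A : Arena) (x : ℕ → ℤ) (j0 : ℕ → ℕ) (v j : ℕ)
    (hv : v < A.length) (hj : j + 2 ≤ slots A) :
    ((toTgt (sysA A).1.length (some (v * slots A + (j + 1)))).elim 0
      fun i : Fin (sysA A).1.length => hsVal A x j0 i) =
      if owner A v = false ∨ j + 1 ≤ j0 v then x v + tot A else 0 := by
  rw [hs_tgt _ (hsVal A x j0), hs_val A x j0 v (j + 1) (by omega)]
  rw [sysA_length]
  calc v * slots A + (j + 1) < v * slots A + slots A := by omega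
    _ = (v + 1) * slots A := by ring
    _ ≤ A.length * slots A := Nat.mul_le_mul_right _ hv

private theorem hs_sInt (e : WEdge) : sInt (e.2.1, e.2.2) = wgt e := rfl

private theorem hs_sInt' (e : WEdge) : sInt e.2 = wgt e := rfl

theorem sysA_of_feasible (A : Arena) (hc : Closed A) (v0 : Fin (sysA A).1.length)
    (h : Feasible A) :
    ∃ x : Fin (sysA A).1.length → ℤ, (∀ v, 0 ≤ x v ∧ x v ≤ (binVal (sysA A).2.1 : ℤ)) ∧
      SysSol (sysA A) v0 x := by
  classical
  obtain ⟨x, hx, hbd⟩ := box A hc h
  have hj0 : ∀ v : ℕ, ∃ j : ℕ, v < A.length → owner A v = true →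
      ∃ hj : j < (edges A v).length, x v ≤ x ((edges A v)[j]).1 + wgt ((edges A v)[j]) := by
    intro v
    by_cases hv : v < A.length ∧ owner A v = true
    · obtain ⟨e, he, hle⟩ := (hx v hv.1).1 hv.2
      obtain ⟨j, hj, rfl⟩ := List.getElem_of_mem he
      exact ⟨j, fun _ _ => ⟨hj, hle⟩⟩
    · exact ⟨0, fun h1 h2 => absurd ⟨h1, h2⟩ hv⟩
  choose j0 hj0 using hj0
  have htb : (binVal (sysA A).2.1 : ℤ) = tot A + tot A := by
    have : (sysA A).2.1 = addB (totB A) (totB A) := rfl
    rw [this, binVal_addB, totB_val]
    push_cast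
    ring
  have hK := hs_slots_pos A
  have hvb : ∀ i, 0 ≤ hsVal A x j0 i ∧ hsVal A x j0 i ≤ tot A + tot A := by
    intro i
    unfold hsVal
    have hb := hbd (i / slots A)
    split_ifs
    · constructor <;> omega
    · constructor <;> omega
  refine ⟨fun i => hsVal A x j0 i, fun v => ?_, ?_, ?_⟩
  · rw [htb]
    exact hvb v
  · show ((binVal [] : ℕ) : ℤ) ≤ hsVal A x j0 v0
    have : binVal [] = 0 := rfl
    rw [this]
    exact_mod_cast (hvb v0).1
  · rintro ⟨i, hi⟩
    have hi' : i < A.length * slots A := by
      rw [sysA_length] at hi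
      exact hi
    have hdec : i / slots A * slots A + i % slots A = i := by
      rw [mul_comm]
      exact Nat.div_add_mod i (slots A)
    have hv : i / slots A < A.length := by
      rw [Nat.div_lt_iff_lt_mul hK]
      exact hi'
    have hj : i % slots A < slots A := Nat.mod_lt _ hK
    generalize i / slots A = v at hdec hv
    generalize i % slots A = j at hdec hj
    have hnode : nodeOf (sysA A) i = slotNode A v j := by
      rw [← hdec]
      exact sysA_node A v j hv hj
    have hval : hsVal A x j0 i = if owner A v = false ∨ j ≤ j0 v then x v + tot A else 0 := by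
      rw [← hdec]
      exact hs_val A x j0 v j hj
    have hkind : (sysOf (sysA A)).kind ⟨i, hi⟩ = kindOf (some (owner A v)) := by
      show kindOf (nodeOf (sysA A) i).1 = _
      rw [hnode]
      rfl
    have ht0 : (((sysOf (sysA A)).tgt ⟨i, hi⟩ false).elim 0
        fun i : Fin (sysA A).1.length => hsVal A x j0 i) = x (slotEdge A v j).1 + tot A := by
      show ((toTgt (sysA A).1.length (nodeOf (sysA A) i).2.1.1).elim 0
        fun i : Fin (sysA A).1.length => hsVal A x j0 i) = _
      rw [hnode]
      exact hs_first A hc x j0 v j hv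
    have hc0 : (sysOf (sysA A)).c ⟨i, hi⟩ false = wgt (slotEdge A v j) := by
      show sInt (nodeOf (sysA A) i).2.1.2 = _
      rw [hnode]
      rfl
    have ht1 : (((sysOf (sysA A)).tgt ⟨i, hi⟩ true).elim 0
        fun i : Fin (sysA A).1.length => hsVal A x j0 i) =
        if j + 2 ≤ slots A then (if owner A v = false ∨ j + 1 ≤ j0 v then x v + tot A else 0)
        else x (slotEdge A v j).1 + tot A := by
      show ((toTgt (sysA A).1.length (nodeOf (sysA A) i).2.2.1).elim 0
        fun i : Fin (sysA A).1.length => hsVal A x j0 i) = _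
      rw [hnode]
      by_cases h2 : j + 2 ≤ slots A
      · rw [if_pos h2, ← hs_next A x j0 v j hv h2]
        simp [slotNode, h2]
      · rw [if_neg h2, ← hs_first A hc x j0 v j hv]
        simp [slotNode, h2]
    have hc1 : (sysOf (sysA A)).c ⟨i, hi⟩ true =
        if j + 2 ≤ slots A then 0 else wgt (slotEdge A v j) := by
      show sInt (nodeOf (sysA A) i).2.2.2 = _
      rw [hnode]
      by_cases h2 : j + 2 ≤ slots A
      · rw [if_pos h2]
        simp [slotNode, h2, sInt, binVal]
      · rw [if_neg h2]
        simp [slotNode, h2, hs_sInt, hs_sInt']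
    rw [hkind]
    rcases ho : owner A v with _ | _
    · -- the minimizer
      show hsVal A x j0 i ≤ _ ∧ hsVal A x j0 i ≤ _
      rw [ht0, hc0, ht1, hc1, hval, ho]
      have hle : x v ≤ x (slotEdge A v j).1 + wgt (slotEdge A v j) := by
        by_cases hn : edges A v = []
        · rw [slotEdge_nil A v j hn, ho]
          have : wgt (v, false, [true]) = 1 := by
            simp [wgt, binVal]
          rw [this]
          simp
        · exact (hx v hv).2 ho _ (slotEdge_mem A v j hn)
      simp only [true_or, if_true]
      constructor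
      · linarith
      · split_ifs <;> linarith
    · -- the maximizer
      show hsVal A x j0 i ≤ _ ∨ hsVal A x j0 i ≤ _
      rw [ht0, hc0, ht1, hc1, hval, ho]
      obtain ⟨hjl, hle⟩ := hj0 v hv ho
      have hlen := edges_length_lt A v
      rcases lt_trichotomy j (j0 v) with hlt | heq | hgt
      · right
        have h2 : j + 2 ≤ slots A := by omega
        rw [if_pos h2, if_pos h2, if_pos (Or.inr (by omega : j + 1 ≤ j0 v)),
          if_pos (Or.inr (by omega : j ≤ j0 v))]
        linarith
      · left
        rw [if_pos (Or.inr (by omega : j ≤ j0 v))]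
        have hjl' : j < (edges A v).length := by omega
        have he : slotEdge A v j = (edges A v)[j0 v] := by
          rw [slotEdge_of_lt A v j hjl']
          congr 1
        rw [he]
        linarith
      · left
        have hne : edges A v ≠ [] := by
          intro h0
          rw [h0] at hjl
          simp at hjl
        rw [if_neg (by
          rintro (h1 | h1)
          · simp at h1
          · omega)]
        have h1 := hs_wgt_ge A v _ (slotEdge_mem A v j hne)
        have h2 := (hbd (slotEdge A v j).1).1
        linarith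

end Pool.Agent.Work.MP_85af13_lc.G
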