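import Pool.Agent.Work.MP_85af13_lc.G.BDefs
import Pool.Agent.Work.MP_85af13_lc.Reduce

set_option autoImplicit false
set_option linter.unusedVariables false
set_option linter.unusedSimpArgs false

/-!
# Min-max systems as coded systems: the nodes

PROOF. Write `N = A.length`, `K = slots A ≥ 1`. `sysA_length`: `N * K` nodes. `sysA_node`: the node `v * K + j` (`v < N`, `j < K`) is `slotNode A v j` (the `i`-th
element of a `flatMap` of blocks of the same length `K`; induction on `N` with `List.range_succ`, `List.flatMap_append`, `List.getD_append`).
`totB_val`: `binVal_sumL`, `List.map_map`. Every member `e` of `edges A v` is a member of `A.flatMap Prod.snd` (`A.getD v _` is a member of `A` or the default), so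
`binVal e.2.2 ≤ tot A` (`List.single_le_sum`/`List.le_sum_of_mem`), and `(edges A v).length ≤ (A.flatMap Prod.snd).length`.
`slotEdge_of_lt`, `slotEdge_mem`, `slotEdge_nil`: unfold. `hub_closed`, `hub_feasible`: `edges (hub A) v = edges A v` and `owner (hub A) v = owner A v` for `v < A.length`,
`edges (hub A) A.length = []`, `owner (hub A) A.length = false`.
-/

namespace Pool.Agent.Work.MP_85af13_lc.G

open Pool.Agent.Work.PolyTime
open Pool.Agent.Work.MP_63b90e_lc (addB shiftB)
open Pool.Agent.Work.MP_62a643_lc (leB mulN dv)

theorem totB_val (A : Arena) : binVal (totB A) = tot A := by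
  unfold totB tot
  rw [binVal_sumL, List.map_map]
  rfl

private theorem mem_of_edges {A : Arena} {v : ℕ} {e : WEdge} (he : e ∈ edges A v) :
    e ∈ A.flatMap Prod.snd := by
  unfold edges at he
  by_cases hv : v < A.length
  · rw [List.getD_eq_getElem _ _ hv] at he
    exact List.mem_flatMap.2 ⟨_, List.getElem_mem hv, he⟩
  · rw [List.getD_eq_default _ _ (not_lt.1 hv)] at he
    exact absurd he List.not_mem_nil

theorem edges_le (A : Arena) (v : ℕ) (e : WEdge) (he : e ∈ edges A v) :
    binVal e.2.2 ≤ tot A := by
  unfold tot
  exact List.le_sum_of_mem (List.mem_map.2 ⟨e, mem_of_edges he, rfl⟩)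

theorem edges_length_lt (A : Arena) (v : ℕ) : (edges A v).length + 1 ≤ slots A := by
  unfold slots edges
  apply Nat.succ_le_succ
  by_cases hv : v < A.length
  · rw [List.getD_eq_getElem _ _ hv]
    rw [List.length_flatMap]
    exact List.le_sum_of_mem (List.mem_map.2 ⟨A[v], List.getElem_mem hv, rfl⟩)
  · rw [List.getD_eq_default _ _ (not_lt.1 hv)]
    exact Nat.zero_le _

theorem slotEdge_of_lt (A : Arena) (v j : ℕ) (h : j < (edges A v).length) :
    slotEdge A v j = (edges A v)[j] := by
  unfold slotEdge
  rw [decide_eq_true (Nat.succ_le_of_lt h), cond_true, List.getD_eq_getElem _ _ h]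

theorem slotEdge_mem (A : Arena) (v j : ℕ) (h : edges A v ≠ []) : slotEdge A v j ∈ edges A v := by
  have hpos : 0 < (edges A v).length := List.length_pos_iff.2 h
  by_cases hj : j < (edges A v).length
  · rw [slotEdge_of_lt A v j hj]
    exact List.getElem_mem hj
  · unfold slotEdge
    have h1 : ¬ (j + 1 ≤ (edges A v).length) := fun h2 => hj h2
    have h2 : (edges A v).length - 1 < (edges A v).length := Nat.sub_lt hpos one_pos
    rw [decide_eq_false h1, cond_false, List.getD_eq_getElem _ _ h2]
    exact List.getElem_mem h2

theorem slotEdge_nil (A : Arena) (v j : ℕ) (h : edges A v = []) :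
    slotEdge A v j = (v, owner A v, [true]) := by
  unfold slotEdge
  rw [h]
  exact List.getD_nil

private theorem flat_length {β : Type} (f : ℕ → List β) (K N : ℕ) (hf : ∀ v, (f v).length = K) :
    ((List.range N).flatMap f).length = N * K := by
  induction N with
  | zero => simp
  | succ N ih =>
    rw [List.range_succ, List.flatMap_append, List.length_append, ih, List.flatMap_singleton, hf]
    ring

private theorem flat_getD {β : Type} (f : ℕ → List β) (K N : ℕ) (hf : ∀ v, (f v).length = K)
    (v j : ℕ) (hv : v < N) (hj : j < K) (d : β) :
    ((List.range N).flatMap f).getD (v * K + j) d = (f v).getD j d := by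
  induction N with
  | zero => exact absurd hv (Nat.not_lt_zero v)
  | succ N ih =>
    rw [List.range_succ, List.flatMap_append, List.flatMap_singleton]
    have hlen := flat_length f K N hf
    by_cases h : v < N
    · rw [List.getD_append _ _ _ _ (by
        rw [hlen]
        calc v * K + j < v * K + K := by omega
          _ = (v + 1) * K := by ring
          _ ≤ N * K := Nat.mul_le_mul_right _ h)]
      exact ih h
    · have h2 : v = N := by omega
      subst h2
      rw [List.getD_append_right _ _ _ _ (by rw [hlen]; exact Nat.le_add_right _ _), hlen,
        Nat.add_sub_cancel_left]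

private theorem block_length (A : Arena) (v : ℕ) :
    ((List.range (slots A)).map fun j => slotNode A v j).length = slots A := by
  rw [List.length_map, List.length_range]

theorem sysA_length (A : Arena) : (sysA A).1.length = A.length * slots A :=
  flat_length _ _ _ (block_length A)

theorem sysA_node (A : Arena) (v j : ℕ) (hv : v < A.length) (hj : j < slots A) :
    nodeOf (sysA A) (v * slots A + j) = slotNode A v j := by
  unfold nodeOf sysA
  show ((List.range A.length).flatMap fun v => (List.range (slots A)).map fun j =>
    slotNode A v j).getD (v * slots A + j) dNode = _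
  rw [flat_getD _ _ _ (block_length A) v j hv hj, List.getD_eq_getElem _ _ (by
    rw [block_length]
    exact hj), List.getElem_map, List.getElem_range]

private theorem hub_getD (A : Arena) (v : ℕ) (hv : v < A.length) :
    (hub A).getD v (true, []) = A.getD v (true, []) := by
  unfold hub
  exact List.getD_append _ _ _ _ hv

private theorem hub_getD_last (A : Arena) : (hub A).getD A.length (true, []) = (false, []) := by
  unfold hub
  rw [List.getD_append_right _ _ _ _ le_rfl, Nat.sub_self]
  rfl

private theorem hub_length (A : Arena) : (hub A).length = A.length + 1 := by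
  unfold hub
  rw [List.length_append]
  rfl

theorem hub_closed (A : Arena) (hc : Closed A) : Closed (hub A) := by
  intro v hv e he
  rw [hub_length] at hv ⊢
  by_cases h : v < A.length
  · unfold edges at he
    rw [hub_getD A v h] at he
    exact Nat.lt_succ_of_lt (hc v h e he)
  · have h2 : v = A.length := by omega
    subst h2
    unfold edges at he
    rw [hub_getD_last] at he
    exact absurd he List.not_mem_nil

theorem hub_feasible (A : Arena) (hc : Closed A) : Feasible (hub A) ↔ Feasible A := by
  constructor
  · rintro ⟨x, hx⟩
    refine ⟨x, fun v hv => ?_⟩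
    have h1 := hx v (by rw [hub_length]; omega)
    unfold owner edges at h1 ⊢
    rwa [hub_getD A v hv] at h1
  · rintro ⟨x, hx⟩
    refine ⟨x, fun v hv => ?_⟩
    rw [hub_length] at hv
    by_cases h : v < A.length
    · have h1 := hx v h
      unfold owner edges at h1 ⊢
      rwa [hub_getD A v h]
    · have h2 : v = A.length := by omega
      subst h2
      unfold owner edges
      rw [hub_getD_last]
      exact ⟨fun h3 => absurd h3 Bool.false_ne_true, fun _ e he => absurd he List.not_mem_nil⟩

end Pool.Agent.Work.MP_85af13_lc.G
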