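import Pool.Agent.Work.MP_85af13_lc.G.B.Good
import Pool.Agent.Work.MP_85af13_lc.G.B.Iso
import Pool.Agent.Work.MP_85af13_lc.G.B.Chips
import Pool.Agent.Work.MP_85af13_lc.Main

set_option autoImplicit false
set_option linter.unusedVariables false
set_option linter.unusedSimpArgs false

/-!
# Coded systems and chip-firing instances (assembly)
-/

namespace Pool.Agent.Work.MP_85af13_lc.G

open Pool.Agent.Work.PolyTime

theorem gInst_main (Y : SysCode) (v0 : Fin Y.1.length) (h0 : (v0 : ℕ) = Y.2.2.2) :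
    (graphOf (gInst Y)).Eulerian ∧
    ((∃ x : Fin Y.1.length → ℤ, (∀ v, 0 ≤ x v ∧ x v ≤ (binVal Y.2.1 : ℤ)) ∧ SysSol Y v0 x) →
      (graphOf (gInst Y)).Terminates (chipsOf (gInst Y))) ∧
    ((graphOf (gInst Y)).Terminates (chipsOf (gInst Y)) →
      ∃ x : Fin Y.1.length → ℤ, SysSol Y v0 x) := by
  have hn : 0 < Y.1.length := Fin.pos v0
  obtain ⟨C, Dl, U, L, T, hg⟩ := good_sys Y hn
  obtain ⟨hW, hH, hQ⟩ := params_pos Y
  have hE := gadget_eulerian (sysOf Y) (paramsOf Y) v0 hW hH hQ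
  have hT := terminates_gadget_iff (v0 := v0) hg hE.2
  obtain ⟨h1, h2⟩ := MultiDigraph.iso_terminates _ (graphOf (gInst Y)) (gEquiv Y)
    (fun p q => gInst_m Y v0 h0 p q) (chips (sysOf Y) (paramsOf Y) v0)
    (chipsOf (gInst Y)) (gInst_chips Y v0 h0) hE.2
  refine ⟨⟨?_, h1⟩, ?_, ?_⟩
  · intro u v
    obtain ⟨p, rfl⟩ := (gEquiv Y).surjective u
    obtain ⟨q, rfl⟩ := (gEquiv Y).surjective v
    have h3 := hE.1 p q
    induction h3 with
    | refl => exact Relation.ReflTransGen.refl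
    | tail _ hstep ih =>
      refine ih.tail ?_
      rw [gInst_m Y v0 h0, gInst_m Y v0 h0]
      exact hstep
  · rintro ⟨x, hx, hs⟩
    rw [h2, hT]
    exact complete hg x (fun v => (hx v).1) (fun v => (hx v).2) hs
  · intro h
    rw [h2, hT] at h
    obtain ⟨z, hz⟩ := h
    exact sound hg z hz

end Pool.Agent.Work.MP_85af13_lc.G
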