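import Pool.Agent.Work.MP_85af13_lc.G.B.SubB

set_option autoImplicit false
set_option linter.unusedVariables false
set_option linter.unusedSimpArgs false

/-!
# The coded instance is computable in polynomial time

PROOF. The usual calculus, bottom up: `PTime` for `nodeOf` (`PTime.nth`), `cTot`, `kkB`, `qqB`, `hhB`, `wwB` (`PTime.mulB`, `PTime.shiftB'`,
`Pool.Agent.Work.MP_62a643_lc.ptime_mulN`, `PTime.natB`), `portI` (cases on an option: `Option.elim`/`PTime.optionCases`-like lemmas, see
PolyTime/Typed*.lean; or rewrite `portI n t = (t.bind fun u => some (..)).getD (3 n)` with `PTime.bind`, `PTime.getD`), `gEdgesAt`, `gEdges` (`PTime.flatMap`),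
`gEntry`, `gDeg`, `gCst` (with `f = posB`, `negB` separately), `gPos`, `gNeg` (`ptime_dv 3`), `gChip`, `gInst`. Model: Reduce.lean (`PTime.newInst`).
-/

namespace Pool.Agent.Work.MP_85af13_lc.G

open Pool.Agent.Work.PolyTime
open Pool.Agent.Work.MP_63b90e_lc (addB shiftB)
open Pool.Agent.Work.MP_62a643_lc (leB mulN dv)

variable {α : Type} [Code α]

private theorem tNode {Y : α → SysCode} {v : α → ℕ} (hY : PTime Y) (hv : PTime v) :
    PTime (fun x => nodeOf (Y x) (v x)) := by
  unfold nodeOf
  exact PTime.nth (PTime.fst.comp hY) hv (PTime.const _)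

private theorem tLen {Y : α → SysCode} (hY : PTime Y) : PTime (fun x => (Y x).1.length) :=
  PTime.length (PTime.fst.comp hY)

private theorem tNone {Y : α → SysCode} {v : α → ℕ} (hY : PTime Y) (hv : PTime v) :
    PTime (fun x => decide ((nodeOf (Y x) (v x)).1 = none)) := by
  have h : PTime (fun x => (nodeOf (Y x) (v x)).1) := PTime.fst.comp (tNode hY hv)
  refine (PTime.eq h (PTime.const none)).code_congr (fun x => ?_)
  congr 1

private theorem tTrue {Y : α → SysCode} {v : α → ℕ} (hY : PTime Y) (hv : PTime v) :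
    PTime (fun x => decide ((nodeOf (Y x) (v x)).1 = some true)) := by
  have h : PTime (fun x => (nodeOf (Y x) (v x)).1) := PTime.fst.comp (tNode hY hv)
  refine (PTime.eq h (PTime.const (some true))).code_congr (fun x => ?_)
  congr 1

private theorem tTot {Y : α → SysCode} (hY : PTime Y) : PTime (fun x => cTot (Y x)) := by
  unfold cTot
  refine PTime.sumL (PTime.map (f := fun _ (a : SNode) => addB a.2.1.2.2 a.2.2.2.2)
    (PTime.fst.comp hY) ?_)
  exact PTime.addB' (by fun_prop) (by fun_prop)

private theorem tR {Y : α → SysCode} (hY : PTime Y) : PTime (fun x => (Y x).2.1) :=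
  PTime.fst.comp (PTime.snd.comp hY)

private theorem tTh {Y : α → SysCode} (hY : PTime Y) : PTime (fun x => (Y x).2.2.1) :=
  PTime.fst.comp (PTime.snd.comp (PTime.snd.comp hY))

private theorem tV0 {Y : α → SysCode} (hY : PTime Y) : PTime (fun x => (Y x).2.2.2) :=
  PTime.snd.comp (PTime.snd.comp (PTime.snd.comp hY))

private theorem tK {Y : α → SysCode} (hY : PTime Y) : PTime (fun x => kkB (Y x)) := by
  unfold kkB
  exact PTime.addB' (PTime.addB' (tR hY) (tTot hY)) (PTime.natB (PTime.natAdd (tLen hY) (PTime.const _)))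

private theorem tQ {Y : α → SysCode} (hY : PTime Y) : PTime (fun x => qqB (Y x)) := by
  unfold qqB
  exact PTime.shiftB' (PTime.const _) (PTime.mulB (tK hY) (PTime.mulB (tK hY) (tK hY)))

private theorem tH {Y : α → SysCode} (hY : PTime Y) : PTime (fun x => hhB (Y x)) := by
  unfold hhB
  exact PTime.shiftB' (PTime.const _) (PTime.mulB (PTime.mulB (tK hY) (tK hY))
    (PTime.mulB (tK hY) (PTime.mulB (tK hY) (tK hY))))

private theorem tW {Y : α → SysCode} (hY : PTime Y) : PTime (fun x => wwB (Y x)) := by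
  unfold wwB
  exact Pool.Agent.Work.MP_62a643_lc.ptime_mulN (PTime.succ (tLen hY)) (tH hY)

private theorem tPort {n : α → ℕ} {t : α → Option ℕ} (hn : PTime n) (ht : PTime t) :
    PTime (fun x => portI (n x) (t x)) := by
  have h3 : PTime (fun x => 3 * n x) := PTime.natMul (PTime.const _) hn
  refine PTime.optionCases ht (g := fun x => 3 * n x)
    (h := fun y => bif decide (y.2 + 1 ≤ n y.1) then 3 * y.2 else 3 * n y.1) h3 ?_ ?_ ?_
  · exact PTime.cond (PTime.natLe (PTime.succ PTime.snd) (hn.comp PTime.fst))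
      (PTime.natMul (PTime.const _) PTime.snd) (h3.comp PTime.fst)
  · intro x hx
    simp only [hx, portI]
  · intro x b hx
    simp only [hx, portI]
    congr 1

private theorem tEdge {Y : α → SysCode} {v : α → ℕ} (hY : PTime Y) (hv : PTime v) :
    PTime (fun x => gEdgesAt (Y x) (v x)) := by
  unfold gEdgesAt
  have h3 : PTime (fun x => 3 * v x) := PTime.natMul (PTime.const _) hv
  have h31 : PTime (fun x => 3 * v x + 1) := PTime.natAdd h3 (PTime.const _)
  have h32 : PTime (fun x => 3 * v x + 2) := PTime.natAdd h3 (PTime.const _)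
  have hN := tNode hY hv
  have p1 : PTime (fun x => portI (Y x).1.length (nodeOf (Y x) (v x)).2.1.1) :=
    tPort (tLen hY) (PTime.fst.comp (PTime.fst.comp (PTime.snd.comp hN)))
  have p2 : PTime (fun x => portI (Y x).1.length (nodeOf (Y x) (v x)).2.2.1) :=
    tPort (tLen hY) (PTime.fst.comp (PTime.snd.comp (PTime.snd.comp hN)))
  refine PTime.cons (PTime.prodMk h31 (PTime.prodMk h3 (tW hY))) ?_
  refine PTime.cons (PTime.prodMk h32 (PTime.prodMk h31 (tH hY))) ?_
  refine PTime.cons (PTime.prodMk h31 (PTime.prodMk p1 (PTime.const _))) ?_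
  refine PTime.cons (PTime.prodMk (PTime.cond (tNone hY hv) h31 h32)
    (PTime.prodMk p2 (PTime.const _))) ?_
  refine PTime.cons (PTime.prodMk h3 (PTime.prodMk (PTime.natMul (PTime.const _) (tLen hY)) ?_))
    (PTime.const _)
  exact PTime.cond (PTime.eq hv (tV0 hY)) (tQ hY) (PTime.const _)

private theorem tEdges {Y : α → SysCode} (hY : PTime Y) : PTime (fun x => gEdges (Y x)) := by
  unfold gEdges
  exact PTime.flatMap (f := fun x v => gEdgesAt (Y x) v) (PTime.range (tLen hY))
    (tEdge (hY.comp PTime.fst) PTime.snd)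

private theorem tEntry {Y : α → SysCode} {p q : α → ℕ} (hY : PTime Y) (hp : PTime p) (hq : PTime q) :
    PTime (fun x => gEntry (Y x) (p x) (q x)) := by
  unfold gEntry
  have hp' : PTime (fun y : α × (ℕ × ℕ × List Bool) => p y.1) := hp.comp PTime.fst
  have hq' : PTime (fun y : α × (ℕ × ℕ × List Bool) => q y.1) := hq.comp PTime.fst
  have e1 : PTime (fun y : α × (ℕ × ℕ × List Bool) => y.2.1) := by fun_prop
  have e2 : PTime (fun y : α × (ℕ × ℕ × List Bool) => y.2.2.1) := by fun_prop
  have e3 : PTime (fun y : α × (ℕ × ℕ × List Bool) => y.2.2.2) := by fun_prop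
  refine PTime.sumL (PTime.map (f := fun x (e : ℕ × ℕ × List Bool) =>
    addB (bif decide (e.1 = p x) && decide (e.2.1 = q x) then e.2.2 else [])
      (bif decide (e.2.1 = p x) && decide (e.1 = q x) then e.2.2 else [])) (tEdges hY) ?_)
  exact PTime.addB' (PTime.cond (PTime.and (PTime.eq e1 hp') (PTime.eq e2 hq')) e3 (PTime.const _))
    (PTime.cond (PTime.and (PTime.eq e2 hp') (PTime.eq e1 hq')) e3 (PTime.const _))

private theorem tSize {Y : α → SysCode} (hY : PTime Y) :
    PTime (fun x => List.range (3 * (Y x).1.length + 1)) :=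
  PTime.range (PTime.succ (PTime.natMul (PTime.const _) (tLen hY)))

private theorem tDeg {Y : α → SysCode} {p : α → ℕ} (hY : PTime Y) (hp : PTime p) :
    PTime (fun x => gDeg (Y x) (p x)) := by
  unfold gDeg
  refine PTime.sumL (PTime.map (f := fun x q => gEntry (Y x) (p x) q) (tSize hY) ?_)
  exact tEntry (hY.comp PTime.fst) (hp.comp PTime.fst) PTime.snd

private theorem tPosB {c : α → Bool × List Bool} (hc : PTime c) : PTime (fun x => posB (c x)) := by
  unfold posB
  exact PTime.cond (PTime.fst.comp hc) (PTime.const _) (PTime.snd.comp hc)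

private theorem tNegB {c : α → Bool × List Bool} (hc : PTime c) : PTime (fun x => negB (c x)) := by
  unfold negB
  exact PTime.cond (PTime.fst.comp hc) (PTime.snd.comp hc) (PTime.const _)

private theorem tCst {Y : α → SysCode} {v i : α → ℕ} (hY : PTime Y) (hv : PTime v) (hi : PTime i)
    {f : Bool × List Bool → List Bool}
    (hf : ∀ c : α → Bool × List Bool, PTime c → PTime (fun x => f (c x))) :
    PTime (fun x => gCst (Y x) (v x) (i x) f) := by
  unfold gCst
  have hN := tNode hY hv
  have c1 := hf _ (PTime.snd.comp (PTime.fst.comp (PTime.snd.comp hN)))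
  have c2 := hf _ (PTime.snd.comp (PTime.snd.comp (PTime.snd.comp hN)))
  exact PTime.cond (PTime.eq hi (PTime.const _))
    (PTime.cond (tNone hY hv) (PTime.addB' c1 c2) c1)
    (PTime.cond (tNone hY hv) (PTime.const _) c2)

private theorem tPos {Y : α → SysCode} {p : α → ℕ} (hY : PTime Y) (hp : PTime p) :
    PTime (fun x => gPos (Y x) (p x)) := by
  unfold gPos
  have hn := tLen hY
  have hd : PTime (fun x => dv 3 (p x)) := Pool.Agent.Work.MP_62a643_lc.ptime_dv 3 hp
  have hd3 : PTime (fun x => 3 * dv 3 (p x)) := PTime.natMul (PTime.const _) hd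
  refine PTime.cond (PTime.eq hp (PTime.natMul (PTime.const _) hn))
    (PTime.natB (PTime.natMul (PTime.const _) hn)) ?_
  refine PTime.cond (PTime.eq hp hd3) ?_ ?_
  · exact PTime.addB' (PTime.mulB (PTime.cond (PTime.eq hd (tV0 hY)) (tQ hY) (PTime.const _)) (tR hY))
      (Pool.Agent.Work.MP_62a643_lc.ptime_mulN (PTime.natMul (PTime.const _) hn)
        (PTime.addB' (tR hY) (PTime.const _)))
  · exact PTime.addB' (tCst hY hd (PTime.natSub hp hd3) (fun c hc => tPosB hc))
      (PTime.cond (PTime.and (PTime.eq hp (PTime.succ hd3)) (tTrue hY hd)) (tH hY) (PTime.const _))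

private theorem tNeg {Y : α → SysCode} {p : α → ℕ} (hY : PTime Y) (hp : PTime p) :
    PTime (fun x => gNeg (Y x) (p x)) := by
  unfold gNeg
  have hn := tLen hY
  have hd : PTime (fun x => dv 3 (p x)) := Pool.Agent.Work.MP_62a643_lc.ptime_dv 3 hp
  have hd3 : PTime (fun x => 3 * dv 3 (p x)) := PTime.natMul (PTime.const _) hd
  refine PTime.cond (PTime.eq hp (PTime.natMul (PTime.const _) hn))
    (PTime.mulB (tQ hY) (tTh hY)) ?_
  exact PTime.cond (PTime.eq hp hd3) (PTime.const _)
    (tCst hY hd (PTime.natSub hp hd3) (fun c hc => tNegB hc))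

private theorem tChip {Y : α → SysCode} {p : α → ℕ} (hY : PTime Y) (hp : PTime p) :
    PTime (fun x => gChip (Y x) (p x)) := by
  unfold gChip
  exact PTime.subB (PTime.addB' (tDeg hY hp) (tNeg hY hp))
    (PTime.addB' (PTime.const _) (tPos hY hp))

theorem PTime.gInst {Y : α → SysCode} (hY : PTime Y) : PTime (fun x => G.gInst (Y x)) := by
  unfold G.gInst
  refine PTime.prodMk ?_ ?_
  · refine PTime.map (f := fun x p => (List.range (3 * (Y x).1.length + 1)).map
      fun q => gEntry (Y x) p q) (tSize hY) ?_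
    refine PTime.map (f := fun (y : α × ℕ) q => gEntry (Y y.1) y.2 q)
      ((tSize hY).comp PTime.fst) ?_
    exact tEntry (hY.comp (f := fun z : (α × ℕ) × ℕ => z.1.1) (by fun_prop)) (by fun_prop)
      (by fun_prop)
  · refine PTime.map (f := fun x p => gChip (Y x) p) (tSize hY) ?_
    exact tChip (hY.comp PTime.fst) PTime.snd

end Pool.Agent.Work.MP_85af13_lc.G
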