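import Pool.Agent.Work.MP_85af13_lc.G.BDefs
import Pool.Agent.Work.MP_85af13_lc.G.A.TimeA

set_option autoImplicit false
set_option linter.unusedVariables false
set_option linter.unusedSimpArgs false

/-!
# The coded system of a min-max system is computable in polynomial time

PROOF. `PTime.owner`, `PTime.edges`, `PTime.totB` (TimeA.lean), `PTime.append`, `PTime.flatMap`, `PTime.map`, `PTime.range`, `PTime.cond`, `PTime.nth`, `PTime.natMul`,
`PTime.natLe`, `PTime.mkSome`, `PTime.prodMk`, `fun_prop`. Model: Reduce.lean (`PTime.newInst`).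
-/

namespace Pool.Agent.Work.MP_85af13_lc.G

open Pool.Agent.Work.PolyTime

variable {α : Type} [Code α]

theorem PTime.hub {A : α → Arena} (hA : PTime A) : PTime (fun x => G.hub (A x)) := by
  unfold G.hub
  exact PTime.append hA (PTime.const _)

private theorem PTime.slots {A : α → Arena} (hA : PTime A) : PTime (fun x => G.slots (A x)) := by
  unfold G.slots
  exact PTime.succ (PTime.length (PTime.flatMap (f := fun _ (a : Bool × List WEdge) => a.2) hA
    (PTime.snd.comp PTime.snd)))

private theorem PTime.slotEdge {A : α → Arena} {v j : α → ℕ} (hA : PTime A) (hv : PTime v)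
    (hj : PTime j) : PTime (fun x => G.slotEdge (A x) (v x) (j x)) := by
  unfold G.slotEdge
  have hl : PTime (fun x => (G.edges (A x) (v x)).length) := PTime.length (PTime.edges hA hv)
  refine PTime.nth (PTime.edges hA hv) ?_ ?_
  · exact PTime.cond (PTime.natLe (PTime.succ hj) hl) hj (PTime.natPred hl)
  · exact PTime.prodMk hv (PTime.prodMk (PTime.owner hA hv) (PTime.const _))

private theorem PTime.slotNode {A : α → Arena} {v j : α → ℕ} (hA : PTime A) (hv : PTime v)
    (hj : PTime j) : PTime (fun x => G.slotNode (A x) (v x) (j x)) := by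
  unfold G.slotNode
  have he := PTime.slotEdge hA hv hj
  have hs := PTime.slots hA
  have h1 : PTime (fun x => ((some ((G.slotEdge (A x) (v x) (j x)).1 * G.slots (A x)),
      (G.slotEdge (A x) (v x) (j x)).2.1, (G.slotEdge (A x) (v x) (j x)).2.2) :
      Option ℕ × Bool × List Bool)) :=
    PTime.prodMk (PTime.mkSome (PTime.natMul (PTime.fst.comp he) hs))
      (PTime.prodMk (PTime.fst.comp (PTime.snd.comp he)) (PTime.snd.comp (PTime.snd.comp he)))
  refine PTime.prodMk (PTime.mkSome (PTime.owner hA hv)) (PTime.prodMk h1 ?_)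
  refine PTime.cond (PTime.natLe (PTime.succ (PTime.succ hj)) hs) ?_ h1
  exact PTime.prodMk (PTime.mkSome (PTime.natAdd (PTime.natMul hv hs) (PTime.succ hj)))
    (PTime.const (false, []))

theorem PTime.sysA {A : α → Arena} (hA : PTime A) : PTime (fun x => G.sysA (A x)) := by
  unfold G.sysA
  refine PTime.prodMk ?_ (PTime.prodMk (PTime.addB' (PTime.totB hA) (PTime.totB hA))
    (PTime.const ([], 0)))
  refine PTime.flatMap (f := fun x (v : ℕ) => (List.range (G.slots (A x))).map fun j =>
    G.slotNode (A x) v j) (PTime.range (PTime.length hA)) ?_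
  refine PTime.map (f := fun (y : α × ℕ) (j : ℕ) => G.slotNode (A y.1) y.2 j)
    (PTime.range (PTime.slots (hA.comp PTime.fst))) ?_
  exact PTime.slotNode (hA.comp (PTime.fst.comp PTime.fst)) (PTime.snd.comp PTime.fst) PTime.snd

end Pool.Agent.Work.MP_85af13_lc.G
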