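import Pool.Agent.Work.MP_85af13_lc.G.B.Main
import Pool.Agent.Work.MP_85af13_lc.G.B.TimeB
import Pool.Agent.Work.MP_85af13_lc.G.B.TimeH
import Pool.Agent.Work.MP_85af13_lc.G.B.HubSys
import Pool.Agent.Work.MP_85af13_lc.G.B.HubSol
import Pool.Agent.Work.MP_85af13_lc.G.B.HubInv
import Pool.Agent.Work.MP_85af13_lc.G.Red

set_option autoImplicit false
set_option linter.unusedVariables false
set_option linter.unusedSimpArgs false

/-!
# Min-max systems reduce to chip-firing (assembly)
-/

namespace Pool.Agent.Work.MP_85af13_lc.G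

open Pool.Agent.Work.PolyTime

theorem hub_pos (A : Arena) : 0 < (sysA (hub A)).1.length := by
  rw [sysA_length]
  have h1 : 0 < (hub A).length := by simp [hub]
  have h2 : 0 < slots (hub A) := by simp [slots]
  exact Nat.mul_pos h1 h2

theorem minMax_le_halting : PolyReducible minMax haltingEulerian := by
  refine reducible_of (wf := Closed) (yes := Feasible)
    (wf2 := fun I : Inst => (graphOf I).Eulerian)
    (yes2 := fun I : Inst => (graphOf I).Terminates (chipsOf I))
    (F := fun A => gInst (sysA (hub A))) closedB_iff (PTime.closedB PTime.id)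
    (PTime.gInst (PTime.sysA (PTime.hub PTime.id))) ?_ ?_
  · intro A hA
    exact (gInst_main (sysA (hub A)) ⟨0, hub_pos A⟩ rfl).1
  · intro A hA
    obtain ⟨-, h1, h2⟩ := gInst_main (sysA (hub A)) ⟨0, hub_pos A⟩ rfl
    rw [← hub_feasible A hA]
    constructor
    · intro h
      exact h1 (sysA_of_feasible (hub A) (hub_closed A hA) _ h)
    · intro h
      obtain ⟨x, hx⟩ := h2 h
      exact feasible_of_sysA (hub A) (hub_closed A hA) _ x hx

end Pool.Agent.Work.MP_85af13_lc.G
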