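import Pool.Agent.Work.MP_85af13_lc.G.SysDefs
import Pool.Agent.Work.MP_85af13_lc.UP
import Pool.Agent.Work.MP_85af13_lc.Reduce

set_option autoImplicit false
set_option linter.unusedVariables false
set_option linter.unusedSimpArgs false

/-!
# Subtraction and small numbers in binary

PROOF. `binVal_subB`: if `leB b a` is false then `binVal a < binVal b` (`leB_iff'`) and both sides are `0`. Otherwise let
`n = a.length + b.length`. The list of the complemented digits has the value `2 ^ n - 1 - binVal b` (prove for all `n ≥ b.length` by induction that
`binVal ((List.range n).map fun i => !(b.getD i false)) + binVal b + 1 = 2 ^ n`; `List.range_succ_eq_map`, induction on `b`/`n`), so the value of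
the sum is `binVal a + 2 ^ n - binVal b` (`binVal_addB`); `take n` reduces modulo `2 ^ n` (small lemma: `binVal (l.take n) = binVal l % 2 ^ n`,
see also MP_62a643_lc/Values.lean) and `binVal a - binVal b < 2 ^ n` (`binVal_lt` in UP.lean). `binVal_natB`: `binVal_mulN'` (Reduce.lean).
`PTime.subB`: `PTime.cond`, `PTime.leB'`, `PTime.addB'`, `PTime.map` over `PTime.range`, `PTime.nth`, `PTime.take`, `fun_prop`; `PTime.natB`:
`Pool.Agent.Work.MP_62a643_lc.ptime_mulN`.
-/

namespace Pool.Agent.Work.MP_85af13_lc.G

open Pool.Agent.Work.PolyTime
open Pool.Agent.Work.MP_63b90e_lc (addB shiftB)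
open Pool.Agent.Work.MP_62a643_lc (leB mulN dv)

private theorem compl_val (n : ℕ) : ∀ b : List Bool, b.length ≤ n →
    binVal ((List.range n).map fun i => !(b.getD i false)) + binVal b + 1 = 2 ^ n := by
  induction n with
  | zero =>
    intro b hb
    have : b = [] := List.eq_nil_of_length_eq_zero (Nat.le_zero.1 hb)
    subst this
    simp [binVal]
  | succ n ih =>
    intro b hb
    rw [List.range_succ_eq_map, List.map_cons, List.map_map]
    cases b with
    | nil =>
      have h1 := ih [] (Nat.zero_le _)
      have h2 : (List.range n).map ((fun i => !(([] : List Bool).getD i false)) ∘ Nat.succ) =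
          (List.range n).map fun i => !(([] : List Bool).getD i false) := by
        refine List.map_congr_left fun i _ => ?_
        simp
      rw [h2]
      simp only [binVal] at h1 ⊢
      have h3 : (!(([] : List Bool).getD 0 false)).toNat = 1 := by simp
      rw [h3, pow_succ]
      omega
    | cons c b' =>
      have h1 := ih b' (Nat.le_of_succ_le_succ hb)
      have h2 : (List.range n).map ((fun i => !((c :: b').getD i false)) ∘ Nat.succ) =
          (List.range n).map fun i => !(b'.getD i false) := by
        refine List.map_congr_left fun i _ => ?_
        simp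
      rw [h2]
      simp only [binVal]
      have h3 : (!((c :: b').getD 0 false)).toNat + c.toNat = 1 := by
        cases c <;> simp
      rw [pow_succ]
      omega

private theorem take_val (n : ℕ) : ∀ l : List Bool, binVal (l.take n) = binVal l % 2 ^ n := by
  induction n with
  | zero =>
    intro l
    rw [List.take_zero, pow_zero, Nat.mod_one]
    rfl
  | succ n ih =>
    intro l
    cases l with
    | nil => simp [binVal]
    | cons c l' =>
      rw [List.take_succ_cons]
      simp only [binVal]
      rw [ih]
      have hm : 0 < 2 ^ n := by positivity
      have h1 := Nat.div_add_mod (binVal l') (2 ^ n)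
      have h2 := Nat.mod_lt (binVal l') hm
      have hc : c.toNat ≤ 1 := by cases c <;> simp
      have h3 : c.toNat + 2 * binVal l' = (c.toNat + 2 * (binVal l' % 2 ^ n)) +
          2 ^ (n + 1) * (binVal l' / 2 ^ n) := by
        rw [pow_succ]
        nlinarith
      have h4 : c.toNat + 2 * (binVal l' % 2 ^ n) < 2 ^ (n + 1) := by
        rw [pow_succ]
        omega
      rw [h3, Nat.add_mul_mod_self_left, Nat.mod_eq_of_lt h4]

theorem binVal_subB (a b : List Bool) : binVal (subB a b) = binVal a - binVal b := by
  unfold subB
  cases h : leB b a with
  | false =>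
    rw [cond_false]
    have h1 : ¬ binVal b ≤ binVal a := fun hc => by
      rw [← leB_iff', h] at hc
      exact Bool.noConfusion hc
    simp only [binVal]
    omega
  | true =>
    rw [cond_true, take_val, binVal_addB, binVal_addB]
    have h1 : binVal b ≤ binVal a := (leB_iff' b a).1 h
    have h2 := compl_val (a.length + b.length) b (Nat.le_add_left _ _)
    have h3 : binVal a < 2 ^ (a.length + b.length) :=
      (binVal_lt a).trans_le (Nat.pow_le_pow_right (by norm_num) (Nat.le_add_right _ _))
    have h4 : binVal [true] = 1 := by simp [binVal]
    rw [h4]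
    have h5 : binVal a + binVal ((List.range (a.length + b.length)).map
        fun i => !(b.getD i false)) + 1 = (binVal a - binVal b) + 2 ^ (a.length + b.length) := by
      omega
    rw [h5, Nat.add_mod_right, Nat.mod_eq_of_lt]
    omega

theorem binVal_natB (k : ℕ) : binVal (natB k) = k := by
  rw [natB, binVal_mulN']
  simp [binVal]

variable {α : Type} [Code α]

theorem PTime.subB {a b : α → List Bool} (ha : PTime a) (hb : PTime b) :
    PTime (fun x => G.subB (a x) (b x)) := by
  have hn : PTime (fun x => (a x).length + (b x).length) := by fun_prop
  have h1 : PTime (fun x : α × ℕ => !((b x.1).getD x.2 false)) := by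
    have h2 : PTime (fun x : α × ℕ => b x.1) := hb.comp PTime.fst
    fun_prop
  have h3 : PTime (fun x => (List.range ((a x).length + (b x).length)).map
      fun i => !((b x).getD i false)) := PTime.map (PTime.range hn) h1
  unfold G.subB
  exact PTime.cond (PTime.leB' hb ha)
    (PTime.take (PTime.addB' (PTime.addB' ha h3) (PTime.const _)) hn) (PTime.const _)

theorem PTime.natB {k : α → ℕ} (hk : PTime k) : PTime (fun x => G.natB (k x)) := by
  unfold G.natB
  exact Pool.Agent.Work.MP_62a643_lc.ptime_mulN hk (PTime.const _)

end Pool.Agent.Work.MP_85af13_lc.G
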